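import Pool.Agent.TH689.QXPar

/-!
# Convex programs for learning parities from few examples

The definitions used in the statement (in `Pool/Agent/TH689/QXPar.lean`,
`Pool/Agent/TH689/QXDefs.lean` and `Pool/Agent/TH689/GXDefs.lean`):

* `parOn S z`: the parity of the bits `z i`, `i ∈ S`. The hypotheses are the parities with `S ∈ F`.
* `Wrong (fun S : F => parOn S) e S`: the parity of `S` gives the wrong label to the labelled
  example `e`.
* `Scheme X 𝒞 a s r D`: the schemes of mixed-integer convex programming relaxations of the problem
  to find a hypothesis in `X` which agrees with a sample, with `a` binary variables, `s` convex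
  constraints of dimension `D` which are common to all samples and `r` such constraints for every
  labelled example in `𝒞`. A constraint says that the value of an affine map to `ℝ ^ D` lies in an
  arbitrary convex set. There are any number of real variables and linear equations. Every
  hypothesis has a vector, about which nothing is assumed.
* `P.CorrectAt Viol x`: the vector of `x` satisfies the common constraints, the constraints
  of the labelled examples with which `x` agrees, and its binary variables are `0` or `1`; so it is
  a solution of the relaxation of every sample with which `x` agrees.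
* `Rejects P Viol y δ`: the relaxation claims, with an error `δ`, that no hypothesis agrees with the
  sample `y`, which is a sequence of `T` labelled examples.
* `P.correctRate Viol`: the fraction of the hypotheses at which `P` is correct.
* `rejectRate P Viol T δ`: the fraction of the samples with `T` members which are rejected, which is
  the probability that random examples with random labels are rejected.
-/

set_option autoImplicit false

namespace Pool.Agent.Results.MP_58e5da_lc.ConvexProgramsForParities

open Pool.Agent.TH689.GX Pool.Agent.TH689.QX

/-- Let `F` be a nonempty family of subsets of the `n` variables, for instance all sets with `k`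
elements, let `T ≥ 1` and `0 < δ < 1`. Let `P ω` be a randomized scheme of mixed-integer convex
programming relaxations for the parities over the sets in `F`, where `ω` has the probability `p ω`,
and with `2 ^ a * (s + (r + 1) * T + 1) * (D + 2) ≤ M`. Then the probability that it is correct at a
random parity and that, independently, it rejects `T` random examples with random labels with the
error `δ` is at most `2 * T ^ 3 * M / (F.card * δ ^ 2)`.

Conversely, for every `S ≤ F.card` there is a scheme with `S` linear inequalities and one more for
every labelled example, which is correct at a fraction `S / F.card` of the parities, rejects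
every sample with `T` members with which no parity agrees with every error `δ < 1 / T`, and so
rejects all but a fraction `F.card / 2 ^ T` of the samples. -/
theorem result (n : ℕ) (F : Finset (Finset (Fin n))) (hF : F.Nonempty) :
    (∀ T : ℕ, 1 ≤ T → ∀ δ : ℝ, 0 < δ → δ < 1 →
      ∀ (Ω : Type) [Fintype Ω] (p : Ω → ℝ), (∀ ω, 0 ≤ p ω) → ∑ ω, p ω = 1 →
      ∀ (a s r D : Ω → ℕ) (M : ℝ),
        (∀ ω, (2 : ℝ) ^ a ω * (s ω + (r ω + 1) * T + 1) * (D ω + 2) ≤ M) →
      ∀ P : ∀ ω, Scheme F ((Fin n → Bool) × Bool) (a ω) (s ω) (r ω) (D ω),
        ∑ ω, p ω * ((P ω).correctRate (Wrong fun S : F => parOn S.1)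
            * rejectRate (P ω) (Wrong fun S : F => parOn S.1) T δ)
          ≤ 2 * T ^ 3 * M / (F.card * δ ^ 2)) ∧
    ∀ S ≤ F.card, ∃ P : Scheme F ((Fin n → Bool) × Bool) 0 S 1 1,
      P.correctRate (Wrong fun S : F => parOn S.1) = (S : ℝ) / F.card ∧
      ∀ (T : ℕ) (δ : ℝ), 0 ≤ δ → T * δ < 1 →
        (∀ y : Fin T → (Fin n → Bool) × Bool, (∀ x : F, ∃ t, parOn x.1 (y t).1 ≠ (y t).2) →
          Rejects P (Wrong fun S : F => parOn S.1) y δ) ∧
        1 - (F.card : ℝ) / 2 ^ T ≤ rejectRate P (Wrong fun S : F => parOn S.1) T δ := by
  have hne : Nonempty F := hF.to_subtype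
  refine ⟨?_, ?_⟩
  · intro T hT δ hδ0 hδ1 Ω _ p hp hp1 a s r D M hM P
    have h1 := learn_random (Wrong fun S : F => parOn S.1) (twist_parOn F hF) hT hδ0 hδ1 Ω p hp
      hp1 a s r D M hM P
    refine h1.trans (le_of_eq ?_)
    have hc : (F.card : ℝ) ≠ 0 := by exact_mod_cast (Finset.card_pos.2 hF).ne'
    field_simp
  · intro S hS
    have hcard : Fintype.card F = F.card := Fintype.card_coe F
    obtain ⟨P, h1, h2⟩ := learn_upper (Wrong fun S : F => parOn S.1) (1 / 2)
      (wrong_half (fun S : F => parOn S.1)) S (by rw [hcard]; exact hS)
    refine ⟨P, ?_, ?_⟩
    · rw [h1, hcard]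
    · intro T δ hδ0 hδ
      obtain ⟨h3, h4⟩ := h2 T δ hδ0 hδ
      refine ⟨h3, ?_⟩
      rw [hcard] at h4
      refine le_trans (le_of_eq ?_) h4
      rw [one_div, inv_pow, div_eq_mul_inv]

end Pool.Agent.Results.MP_58e5da_lc.ConvexProgramsForParities
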